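import Pool.Agent.J4H56.FC.Leaves

/-!
# Sums of four integer cubes: all residue classes except `±4 (mod 9)`, and the box criterion
-/

namespace Pool.Agent.J4H56.FC

theorem nonsq_8 {a b : ℤ} (h : a * b % 8 = 3) : ¬ IsSquare (a * b) := by
  rintro ⟨r, hr⟩
  rw [hr] at h
  have : r % 8 = 0 ∨ r % 8 = 1 ∨ r % 8 = 2 ∨ r % 8 = 3 ∨ r % 8 = 4 ∨ r % 8 = 5 ∨ r % 8 = 6 ∨
    r % 8 = 7 := by omega
  rcases this with h1 | h1 | h1 | h1 | h1 | h1 | h1 | h1 <;> simp [Int.mul_emod, h1] at h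

theorem g_s18 (x : ℤ) : Good (7 + 18 * x) := by
  have e : (x + 2 + (-9 * x + 2)) * (6 * x - 1 + (8 * x - 2))
      = -(2 ^ 2 * ((2 * x - 1) * (14 * x - 3))) := by ring
  refine ⟨x + 2, -9 * x + 2, 6 * x - 1, 8 * x - 2, by ring, ?_, ?_, ?_⟩
  · rw [e]
    have : 0 < (2 * x - 1) * (14 * x - 3) := by
      rcases le_or_gt x 0 with h | h
      · nlinarith
      · nlinarith
    linarith
  · rw [e, neg_neg]
    rintro ⟨r, hr⟩
    have h2 : (2 : ℤ) ^ 2 ∣ r ^ 2 := ⟨_, by rw [sq r, ← hr]⟩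
    rw [Int.pow_dvd_pow_iff two_ne_zero] at h2
    obtain ⟨r', rfl⟩ := h2
    have h3 : (2 * x - 1) * (14 * x - 3) = r' * r' := by nlinarith
    refine nonsq_8 (a := 2 * x - 1) (b := 14 * x - 3) ?_ ⟨r', h3⟩
    have : x % 4 = 0 ∨ x % 4 = 1 ∨ x % 4 = 2 ∨ x % 4 = 3 := by omega
    obtain ⟨q, hq⟩ : ∃ q, x = 4 * q + x % 4 := ⟨x / 4, by omega⟩
    rcases this with h1 | h1 | h1 | h1 <;> rw [h1] at hq <;> subst hq <;> ring_nf <;> omega
  · rintro ⟨h1, h2⟩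
    omega

theorem g_p18 (k : ℤ) : Good (1982 + 17820 * k) := by
  -- l = k + 25
  have hs : ∀ l : ℤ, l ≠ 0 → 0 < (70 * l + 55) * (70 * l - 57) ∧
      ¬ IsSquare ((70 * l + 55) * (70 * l - 57)) := by
    intro l hl
    have e : (70 * l + 55) * (70 * l - 57) = (70 * l - 1) ^ 2 - 56 ^ 2 := by ring
    constructor
    · rcases lt_or_gt_of_ne hl with h | h
      · nlinarith
      · nlinarith
    · rcases le_or_gt 45 |l| with h | h
      · have hb : (56 : ℤ) ^ 2 < |70 * l - 1| := by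
          rcases le_abs.1 h with h1 | h1
          · exact lt_of_lt_of_le (by linarith) (le_abs_self _)
          · exact lt_of_lt_of_le (by linarith) (neg_le_abs _)
        rw [e]
        rintro ⟨r, hr⟩
        exact (nonsq (by norm_num) hb).2 r (by rw [hr, sq])
      · rw [abs_lt] at h
        obtain ⟨h1, h2⟩ := h
        have h1' : -44 ≤ l := by omega
        have h2' : l ≤ 44 := by omega
        clear e h1 h2
        interval_cases l <;> first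
          | exact absurd rfl hl
          | norm_num
  by_cases hk : k = -25
  · subst hk
    exact good_of (-59) (-62) (-3) 6 (by norm_num) (by norm_num) (by norm_num) (by norm_num)
  · obtain ⟨h1, h2⟩ := hs (k + 25) (by omega)
    have e : (-1371 - 55 * k + (-434 - 15 * k)) * (1380 + 55 * k + (313 + 15 * k))
        = -((70 * (k + 25) + 55) * (70 * (k + 25) - 57)) := by ring
    refine ⟨-1371 - 55 * k, -434 - 15 * k, 1380 + 55 * k, 313 + 15 * k, by ring, ?_, ?_, ?_⟩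
    · rw [e]; linarith
    · rw [e, neg_neg]; exact h2
    · rintro ⟨a, b⟩; omega

theorem g_38 (m : ℤ) : Good (38 + 108 * m) := by
  have h5 : m % 5 = 0 ∨ m % 5 = 1 ∨ m % 5 = 2 ∨ m % 5 = 3 ∨ m % 5 = 4 := by omega
  rcases h5 with h | h | h | h | h
  · obtain ⟨k, rfl⟩ : ∃ k, m = 5 * k := ⟨m / 5, by omega⟩
    have := g_m0 k; ring_nf at this ⊢; exact this
  · obtain ⟨k, rfl⟩ : ∃ k, m = 5 * k + 1 := ⟨m / 5, by omega⟩
    have := g_m1 k; ring_nf at this ⊢; exact this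
  · obtain ⟨k, rfl⟩ : ∃ k, m = 5 * k + 2 := ⟨m / 5, by omega⟩
    have := g_m2 k; ring_nf at this ⊢; exact this
  · have h3 : m % 15 = 3 ∨ m % 15 = 8 ∨ m % 15 = 13 := by omega
    rcases h3 with h3 | h3 | h3
    · obtain ⟨a, rfl⟩ : ∃ a, m = 15 * a + 3 := ⟨m / 15, by omega⟩
      have h11 : a % 11 = 0 ∨ a % 11 = 1 ∨ a % 11 = 2 ∨ a % 11 = 3 ∨ a % 11 = 4 ∨ a % 11 = 5 ∨
        a % 11 = 6 ∨ a % 11 = 7 ∨ a % 11 = 8 ∨ a % 11 = 9 ∨ a % 11 = 10 := by omega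
      rcases h11 with h | h | h | h | h | h | h | h | h | h | h
      · obtain ⟨k, rfl⟩ : ∃ k, a = 11 * k := ⟨a / 11, by omega⟩
        have := g_p3 k; ring_nf at this ⊢; exact this
      · obtain ⟨k, rfl⟩ : ∃ k, a = 11 * k + 1 := ⟨a / 11, by omega⟩
        have := g_p18 k; ring_nf at this ⊢; exact this
      · obtain ⟨k, rfl⟩ : ∃ k, a = 11 * k + 2 := ⟨a / 11, by omega⟩
        have := g_p33 k; ring_nf at this ⊢; exact this
      · obtain ⟨k, rfl⟩ : ∃ k, a = 11 * k + 3 := ⟨a / 11, by omega⟩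
        have := g_p48 k; ring_nf at this ⊢; exact this
      · obtain ⟨k, rfl⟩ : ∃ k, a = 11 * k + 4 := ⟨a / 11, by omega⟩
        have := g_p63 k; ring_nf at this ⊢; exact this
      · obtain ⟨k, rfl⟩ : ∃ k, a = 11 * k + 5 := ⟨a / 11, by omega⟩
        have := g_p78 k; ring_nf at this ⊢; exact this
      · obtain ⟨k, rfl⟩ : ∃ k, a = 11 * k + 6 := ⟨a / 11, by omega⟩
        have := g_p93 k; ring_nf at this ⊢; exact this
      · obtain ⟨k, rfl⟩ : ∃ k, a = 11 * k + 7 := ⟨a / 11, by omega⟩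
        have := g_p108 k; ring_nf at this ⊢; exact this
      · obtain ⟨k, rfl⟩ : ∃ k, a = 11 * k + 8 := ⟨a / 11, by omega⟩
        have := g_p123 k; ring_nf at this ⊢; exact this
      · obtain ⟨k, rfl⟩ : ∃ k, a = 11 * k + 9 := ⟨a / 11, by omega⟩
        have := g_p138 k; ring_nf at this ⊢; exact this
      · obtain ⟨k, rfl⟩ : ∃ k, a = 11 * k + 10 := ⟨a / 11, by omega⟩
        have := g_p153 k; ring_nf at this ⊢; exact this
    · obtain ⟨k, rfl⟩ : ∃ k, m = 15 * k + 8 := ⟨m / 15, by omega⟩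
      have := g_m8 k; ring_nf at this ⊢; exact this
    · obtain ⟨k, rfl⟩ : ∃ k, m = 15 * k + 13 := ⟨m / 15, by omega⟩
      have := g_m13 k; ring_nf at this ⊢; exact this
  · obtain ⟨k, rfl⟩ : ∃ k, m = 5 * k + 4 := ⟨m / 5, by omega⟩
    have := g_m4 k; ring_nf at this ⊢; exact this

theorem g_2 (m : ℤ) : Good (2 + 54 * m) := by
  have h4 : m % 2 = 0 ∨ m % 4 = 1 ∨ m % 4 = 3 := by omega
  rcases h4 with h | h | h
  · obtain ⟨k, rfl⟩ : ∃ k, m = 2 * k := ⟨m / 2, by omega⟩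
    have := g_a54 k; ring_nf at this ⊢; exact this
  · obtain ⟨k, rfl⟩ : ∃ k, m = 4 * k + 1 := ⟨m / 4, by omega⟩
    have := g_b54 k; ring_nf at this ⊢; exact this
  · obtain ⟨k, rfl⟩ : ∃ k, m = 4 * k + 3 := ⟨m / 4, by omega⟩
    have := g_c54 k; ring_nf at this ⊢; exact this

theorem g_2' (m : ℤ) : Good (2 + 18 * m) := by
  have h : m % 3 = 0 ∨ m % 3 = 1 ∨ m % 6 = 2 ∨ m % 6 = 5 := by omega
  rcases h with h | h | h | h
  · obtain ⟨k, rfl⟩ : ∃ k, m = 3 * k := ⟨m / 3, by omega⟩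
    have := g_2 k; ring_nf at this ⊢; exact this
  · obtain ⟨k, rfl⟩ : ∃ k, m = 3 * k + 1 := ⟨m / 3, by omega⟩
    have := g_w54 k; ring_nf at this ⊢; exact this
  · obtain ⟨k, rfl⟩ : ∃ k, m = 6 * k + 2 := ⟨m / 6, by omega⟩
    have := g_38 k; ring_nf at this ⊢; exact this
  · obtain ⟨k, rfl⟩ : ∃ k, m = 6 * k + 5 := ⟨m / 6, by omega⟩
    have := g_n92 k; ring_nf at this ⊢; exact this

/-- Every integer not congruent to `±4 (mod 9)` has a good representation. -/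
theorem good (n : ℤ) (h4 : n % 9 ≠ 4) (h5 : n % 9 ≠ 5) : Good n := by
  have pos : ∀ n : ℤ, (n % 18 = 0 ∨ n % 18 = 3 ∨ n % 18 = 6 ∨ n % 18 = 9 ∨ n % 18 = 12 ∨
      n % 18 = 15 ∨ n % 18 = 1 ∨ n % 18 = 7 ∨ n % 18 = 8 ∨ n % 18 = 2) → Good n := by
    intro n h
    have : n % 6 = 0 ∨ n % 6 = 3 ∨ n % 18 = 1 ∨ n % 18 = 7 ∨ n % 18 = 8 ∨ n % 18 = 2 := by omega
    rcases this with h | h | h | h | h | h
    · obtain ⟨k, rfl⟩ : ∃ k, n = 6 * k := ⟨n / 6, by omega⟩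
      have := g_z6 k; ring_nf at this ⊢; exact this
    · obtain ⟨k, rfl⟩ : ∃ k, n = 3 + 6 * k := ⟨n / 6, by omega⟩
      exact g_t6 k
    · obtain ⟨k, rfl⟩ : ∃ k, n = 1 + 18 * k := ⟨n / 18, by omega⟩
      exact g_o18 k
    · obtain ⟨k, rfl⟩ : ∃ k, n = 7 + 18 * k := ⟨n / 18, by omega⟩
      exact g_s18 k
    · obtain ⟨k, rfl⟩ : ∃ k, n = 8 + 18 * k := ⟨n / 18, by omega⟩
      exact g_e18 k
    · obtain ⟨k, rfl⟩ : ∃ k, n = 2 + 18 * k := ⟨n / 18, by omega⟩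
      exact g_2' k
  by_cases h : n % 18 = 0 ∨ n % 18 = 3 ∨ n % 18 = 6 ∨ n % 18 = 9 ∨ n % 18 = 12 ∨
      n % 18 = 15 ∨ n % 18 = 1 ∨ n % 18 = 7 ∨ n % 18 = 8 ∨ n % 18 = 2
  · exact pos n h
  · have := (pos (-n) (by omega)).neg
    rwa [neg_neg] at this

end Pool.Agent.J4H56.FC
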