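import Mathlib

/-!
# Sums of four integer cubes: Mordell's Pell construction and a family of identities
-/

namespace Pool.Agent.J4H56.FC

/-- The set of representations of `m` as a sum of four integer cubes. -/
def S (m : ℤ) : Set (ℤ × ℤ × ℤ × ℤ) :=
  {p : ℤ × ℤ × ℤ × ℤ | p.1 ^ 3 + p.2.1 ^ 3 + p.2.2.1 ^ 3 + p.2.2.2 ^ 3 = m}

/-! ### Pell equations with an even second coordinate -/

theorem pell_big {D : ℤ} (hD : 0 < D) (hs : ¬ IsSquare D) (N : ℕ) :
    ∃ a b : ℤ, a ^ 2 - D * b ^ 2 = 1 ∧ (N : ℤ) < b ∧ 2 ∣ b ∧ 1 < a := by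
  induction N with
  | zero =>
    obtain ⟨a, b, h, hb⟩ := Pell.exists_of_not_isSquare hD hs
    have hb2 : 0 < b ^ 2 := by positivity
    have ha : 1 < |a| := by
      have : 1 < a ^ 2 := by nlinarith [mul_pos hD hb2]
      have h2 : 1 ^ 2 < |a| ^ 2 := by rw [sq_abs]; linarith
      exact lt_of_pow_lt_pow_left₀ 2 (abs_nonneg a) h2
    have hb' : 0 < |b| := abs_pos.2 hb
    have h' : |a| ^ 2 - D * |b| ^ 2 = 1 := by rw [sq_abs, sq_abs]; exact h
    refine ⟨|a| ^ 2 + D * |b| ^ 2, 2 * |a| * |b|, ?_, ?_, ⟨|a| * |b|, by ring⟩, ?_⟩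
    · have : (|a| ^ 2 + D * |b| ^ 2) ^ 2 - D * (2 * |a| * |b|) ^ 2
          = (|a| ^ 2 - D * |b| ^ 2) ^ 2 := by ring
      rw [this, h']; norm_num
    · simp only [Nat.cast_zero]; positivity
    · nlinarith [mul_pos hD (pow_pos hb' 2)]
  | succ N ih =>
    obtain ⟨a, b, h, hb, h2, ha⟩ := ih
    have hb0 : 0 < b := lt_of_le_of_lt (by positivity) hb
    refine ⟨a ^ 2 + D * b ^ 2, 2 * a * b, ?_, ?_, ⟨a * b, by ring⟩, ?_⟩
    · have : (a ^ 2 + D * b ^ 2) ^ 2 - D * (2 * a * b) ^ 2 = (a ^ 2 - D * b ^ 2) ^ 2 := by ring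
      rw [this, h]; norm_num
    · push_cast; nlinarith [mul_pos (show (0 : ℤ) < a by linarith) hb0]
    · nlinarith [mul_pos hD (pow_pos hb0 2)]

theorem pell_infinite {D : ℤ} (hD : 0 < D) (hs : ¬ IsSquare D) :
    {p : ℤ × ℤ | p.1 ^ 2 - D * p.2 ^ 2 = 1 ∧ 2 ∣ p.2}.Infinite := by
  have : (Prod.snd '' {p : ℤ × ℤ | p.1 ^ 2 - D * p.2 ^ 2 = 1 ∧ 2 ∣ p.2}).Infinite := by
    refine Set.infinite_of_not_bddAbove ?_
    rintro ⟨M, hM⟩
    obtain ⟨a, b, h, hb, h2, -⟩ := pell_big hD hs M.natAbs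
    have := hM ⟨(a, b), ⟨h, h2⟩, rfl⟩
    simp only at this
    have h3 : M ≤ M.natAbs := Int.le_natAbs
    omega
  exact this.of_image _

/-- `D u² = v²` with `D` not a square forces `u = v = 0`. -/
theorem zero_of_nonsquare {s t u v : ℤ} (hst : s * t < 0) (hs : ¬ IsSquare (-(s * t)))
    (h : s * u ^ 2 + t * v ^ 2 = 0) : u = 0 ∧ v = 0 := by
  have hs0 : s ≠ 0 := by rintro rfl; simp at hst
  have ht0 : t ≠ 0 := by rintro rfl; simp at hst
  have h1 : (s * u) ^ 2 = -(s * t) * v ^ 2 := by linear_combination s * h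
  by_cases hv : v = 0
  · subst hv
    have : s * u ^ 2 = 0 := by simpa using h
    rcases mul_eq_zero.1 this with h2 | h2
    · exact absurd h2 hs0
    · exact ⟨pow_eq_zero_iff (two_ne_zero) |>.1 h2, rfl⟩
  · exfalso
    have h2 : v ^ 2 ∣ (s * u) ^ 2 := ⟨-(s * t), by linear_combination h1⟩
    rw [Int.pow_dvd_pow_iff two_ne_zero] at h2
    obtain ⟨k, hk⟩ := h2
    refine hs ⟨k, ?_⟩
    rw [hk] at h1
    have : v ^ 2 * (-(s * t) - k * k) = 0 := by linear_combination -h1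
    rcases mul_eq_zero.1 this with h3 | h3
    · exact absurd (pow_eq_zero_iff two_ne_zero |>.1 h3) hv
    · linarith

/-- **Mordell.** One solution with `-(x+y)(z+w)` positive and not a square (and not `x = y`,
`z = w`) gives infinitely many. -/
theorem infinite_of_good {m x y z w : ℤ} (h : x ^ 3 + y ^ 3 + z ^ 3 + w ^ 3 = m)
    (hn : (x + y) * (z + w) < 0) (hs : ¬ IsSquare (-((x + y) * (z + w))))
    (hd : ¬ (x = y ∧ z = w)) : (S m).Infinite := by
  set s := x + y with hs'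
  set t := z + w with ht'
  have hk : s * (x - y) ^ 2 + t * (z - w) ^ 2 ≠ 0 := by
    intro h0
    obtain ⟨h1, h2⟩ := zero_of_nonsquare hn hs h0
    exact hd ⟨by linarith, by linarith⟩
  have hinf := pell_infinite (D := -(s * t)) (by linarith) hs
  -- (a, b) ↦ u' = a u + b t v, v' = a v - b s u, with b = 2 b'
  let f : ℤ × ℤ → ℤ × ℤ × ℤ × ℤ := fun p =>
    ((s + (p.1 * (x - y) + p.2 * t * (z - w))) / 2,
      (s - (p.1 * (x - y) + p.2 * t * (z - w))) / 2,
      (t + (p.1 * (z - w) - p.2 * s * (x - y))) / 2,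
      (t - (p.1 * (z - w) - p.2 * s * (x - y))) / 2)
  have key : ∀ p ∈ {p : ℤ × ℤ | p.1 ^ 2 - -(s * t) * p.2 ^ 2 = 1 ∧ 2 ∣ p.2},
      2 * (f p).1 = s + (p.1 * (x - y) + p.2 * t * (z - w)) ∧
      2 * (f p).2.1 = s - (p.1 * (x - y) + p.2 * t * (z - w)) ∧
      2 * (f p).2.2.1 = t + (p.1 * (z - w) - p.2 * s * (x - y)) ∧
      2 * (f p).2.2.2 = t - (p.1 * (z - w) - p.2 * s * (x - y)) := by
    rintro ⟨a, b⟩ ⟨h1, b', rfl⟩
    simp only at h1
    have ha : ∃ a', a = 2 * a' + 1 := by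
      have : Odd a := by
        by_contra hodd
        rw [Int.not_odd_iff_even] at hodd
        obtain ⟨a', rfl⟩ := hodd
        have : (2 : ℤ) ∣ 1 := ⟨2 * a' ^ 2 - -(s * t) * (2 * b' ^ 2), by linear_combination -h1⟩
        omega
      obtain ⟨a', ha'⟩ := this
      exact ⟨a', ha'⟩
    obtain ⟨a', rfl⟩ := ha
    have e1 : s + ((2 * a' + 1) * (x - y) + 2 * b' * t * (z - w))
        = 2 * (x + a' * (x - y) + b' * t * (z - w)) := by rw [hs']; ring
    have e2 : s - ((2 * a' + 1) * (x - y) + 2 * b' * t * (z - w))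
        = 2 * (y - a' * (x - y) - b' * t * (z - w)) := by rw [hs']; ring
    have e3 : t + ((2 * a' + 1) * (z - w) - 2 * b' * s * (x - y))
        = 2 * (z + a' * (z - w) - b' * s * (x - y)) := by rw [ht']; ring
    have e4 : t - ((2 * a' + 1) * (z - w) - 2 * b' * s * (x - y))
        = 2 * (w - a' * (z - w) + b' * s * (x - y)) := by rw [ht']; ring
    simp only [f]
    rw [e1, e2, e3, e4]
    simp only [Int.mul_ediv_cancel_left _ (two_ne_zero : (2 : ℤ) ≠ 0)]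
    exact ⟨trivial, trivial, trivial, trivial⟩
  refine Set.infinite_of_injOn_mapsTo (f := f) ?_ ?_ hinf
  · intro p hp p' hp' he
    obtain ⟨h1, h2, h3, h4⟩ := key p hp
    obtain ⟨h1', h2', h3', h4'⟩ := key p' hp'
    rw [he] at h1 h3
    have e1 : (p.1 - p'.1) * (x - y) + (p.2 - p'.2) * t * (z - w) = 0 := by linarith
    have e2 : (p.1 - p'.1) * (z - w) - (p.2 - p'.2) * s * (x - y) = 0 := by linarith
    have e3 : (p.1 - p'.1) * (s * (x - y) ^ 2 + t * (z - w) ^ 2) = 0 := by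
      linear_combination s * (x - y) * e1 + t * (z - w) * e2
    have e4 : (p.2 - p'.2) * (s * (x - y) ^ 2 + t * (z - w) ^ 2) = 0 := by
      linear_combination (z - w) * e1 - (x - y) * e2
    have a1 := (mul_eq_zero.1 e3).resolve_right hk
    have a2 := (mul_eq_zero.1 e4).resolve_right hk
    exact Prod.ext (by linarith) (by linarith)
  · intro p hp
    obtain ⟨h1, h2, h3, h4⟩ := key p hp
    have hp1 := hp.1
    show (f p).1 ^ 3 + (f p).2.1 ^ 3 + (f p).2.2.1 ^ 3 + (f p).2.2.2 ^ 3 = m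
    generalize (f p).1 = X at *
    generalize (f p).2.1 = Y at *
    generalize (f p).2.2.1 = Z at *
    generalize (f p).2.2.2 = V at *
    have e : 8 * (X ^ 3 + Y ^ 3 + Z ^ 3 + V ^ 3) = 8 * m := by
      have : 8 * (X ^ 3 + Y ^ 3 + Z ^ 3 + V ^ 3)
          = (2 * X) ^ 3 + (2 * Y) ^ 3 + (2 * Z) ^ 3 + (2 * V) ^ 3 := by ring
      rw [this, h1, h2, h3, h4, ← h]
      have hx : x = (s + (x - y)) - x := by rw [hs']; ring
      have : (s + (p.1 * (x - y) + p.2 * t * (z - w))) ^ 3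
          + (s - (p.1 * (x - y) + p.2 * t * (z - w))) ^ 3
          + (t + (p.1 * (z - w) - p.2 * s * (x - y))) ^ 3
          + (t - (p.1 * (z - w) - p.2 * s * (x - y))) ^ 3
          = 2 * s ^ 3 + 2 * t ^ 3
            + 6 * (p.1 ^ 2 - -(s * t) * p.2 ^ 2) * (s * (x - y) ^ 2 + t * (z - w) ^ 2) := by
        ring
      rw [this, hp1, hs', ht']
      ring
    linarith

end Pool.Agent.J4H56.FC
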