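import Pool.Agent.J4H56.FC.Asm

/-!
# Sums of four integer cubes: the classes `±4 (mod 9)`
-/

namespace Pool.Agent.J4H56.FC

theorem cube_mod9 (x : ℤ) : (x % 3 = 0 ∧ x ^ 3 % 9 = 0) ∨ (x % 3 = 1 ∧ x ^ 3 % 9 = 1) ∨
    (x % 3 = 2 ∧ x ^ 3 % 9 = 8) := by
  have h : x % 3 = 0 ∨ x % 3 = 1 ∨ x % 3 = 2 := by omega
  rcases h with h | h | h
  · obtain ⟨k, rfl⟩ : ∃ k, x = 3 * k := ⟨x / 3, by omega⟩
    left
    refine ⟨h, ?_⟩
    have : (3 * k) ^ 3 = 9 * (3 * k ^ 3) := by ring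
    rw [this]; omega
  · obtain ⟨k, rfl⟩ : ∃ k, x = 3 * k + 1 := ⟨x / 3, by omega⟩
    right; left
    refine ⟨h, ?_⟩
    have : (3 * k + 1) ^ 3 = 9 * (3 * k ^ 3 + 3 * k ^ 2 + k) + 1 := by ring
    rw [this]; omega
  · obtain ⟨k, rfl⟩ : ∃ k, x = 3 * k + 2 := ⟨x / 3, by omega⟩
    right; right
    refine ⟨h, ?_⟩
    have : (3 * k + 2) ^ 3 = 9 * (3 * k ^ 3 + 6 * k ^ 2 + 4 * k) + 8 := by ring
    rw [this]; omega

/-- For `m ≡ ±4 (mod 9)` all entries are `≡ 1`, or all are `≡ 2 (mod 3)`. -/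
theorem all_mod3 {m x y z w : ℤ} (hm : m % 9 = 4 ∨ m % 9 = 5)
    (h : x ^ 3 + y ^ 3 + z ^ 3 + w ^ 3 = m) :
    (x % 3 = 1 ∧ y % 3 = 1 ∧ z % 3 = 1 ∧ w % 3 = 1) ∨
    (x % 3 = 2 ∧ y % 3 = 2 ∧ z % 3 = 2 ∧ w % 3 = 2) := by
  rcases cube_mod9 x with ⟨a1, a2⟩ | ⟨a1, a2⟩ | ⟨a1, a2⟩ <;>
  rcases cube_mod9 y with ⟨b1, b2⟩ | ⟨b1, b2⟩ | ⟨b1, b2⟩ <;>
  rcases cube_mod9 z with ⟨c1, c2⟩ | ⟨c1, c2⟩ | ⟨c1, c2⟩ <;>
  rcases cube_mod9 w with ⟨d1, d2⟩ | ⟨d1, d2⟩ | ⟨d1, d2⟩ <;> omega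

theorem nonsq_mod3 {a b : ℤ} (h : (a % 3 = 2 ∧ b % 3 = 2) ∨ (a % 3 = 1 ∧ b % 3 = 1)) :
    ¬ IsSquare (-(a * b)) := by
  rintro ⟨r, hr⟩
  have h1 : a * b % 3 = 1 := by
    rcases h with ⟨h1, h2⟩ | ⟨h1, h2⟩ <;> simp [Int.mul_emod, h1, h2]
  have h2 : r * r % 3 = 0 ∨ r * r % 3 = 1 := by
    have : r % 3 = 0 ∨ r % 3 = 1 ∨ r % 3 = 2 := by omega
    rcases this with h3 | h3 | h3 <;> simp [Int.mul_emod, h3]
  omega

/-- In the classes `±4 (mod 9)` a nondegenerate solution with `(x+y)(z+w) < 0` is good. -/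
theorem good_of_neg {m x y z w : ℤ} (hm : m % 9 = 4 ∨ m % 9 = 5)
    (h : x ^ 3 + y ^ 3 + z ^ 3 + w ^ 3 = m) (hn : (x + y) * (z + w) < 0)
    (hd : ¬ (x = y ∧ z = w)) : Good m := by
  refine ⟨x, y, z, w, h, hn, nonsq_mod3 ?_, hd⟩
  rcases all_mod3 hm h with ⟨a, b, c, d⟩ | ⟨a, b, c, d⟩
  · left; omega
  · right; omega

theorem two_cubes {a b : ℤ} (h : 0 < a + b) : 3 * a ^ 2 - 3 * |a| + 1 ≤ a ^ 3 + b ^ 3 := by
  have h1 : 3 * a ^ 2 - 3 * |a| + 1 ≤ 3 * a ^ 2 - 3 * a + 1 := by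
    linarith [le_abs_self a]
  have h2 : a ^ 3 + (1 - a) ^ 3 = 3 * a ^ 2 - 3 * a + 1 := by ring
  have h3 : (1 - a) ^ 3 ≤ b ^ 3 := by
    have : 1 - a ≤ b := by linarith
    exact (Odd.strictMono_pow (by decide : Odd 3)).monotone this
  linarith

/-- All pair sums positive: the entries are small. -/
theorem small_of_pos {m x y z w : ℤ} (h : x ^ 3 + y ^ 3 + z ^ 3 + w ^ 3 = m)
    (h1 : 0 < x + y) (h2 : 0 < z + w) : 3 * x ^ 2 - 3 * |x| + 2 ≤ |m| := by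
  have a := two_cubes h1
  have b := two_cubes h2
  have c : 0 ≤ 3 * z ^ 2 - 3 * |z| := by
    rcases eq_or_ne z 0 with rfl | hz
    · simp
    · have : 1 ≤ |z| := Int.one_le_abs hz
      rw [← sq_abs]
      nlinarith
  have := le_abs_self m
  linarith

theorem good_of_big {m x y z w : ℤ} (hm : m % 9 = 4 ∨ m % 9 = 5)
    (h : x ^ 3 + y ^ 3 + z ^ 3 + w ^ 3 = m) (hb : |m| < 3 * x ^ 2 - 3 * |x| + 2) : Good m := by
  have h3 := all_mod3 hm h
  -- degenerate solutions are small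
  have deg : ∀ a b : ℤ, a + b ≠ 0 → 2 * (a ^ 3 + b ^ 3) = m → |m| < 3 * a ^ 2 - 3 * |a| + 2 →
      False := by
    intro a b hab he hlt
    have c : 0 ≤ 3 * a ^ 2 - 3 * |a| := by
      rcases eq_or_ne a 0 with rfl | hz
      · simp
      · have : 1 ≤ |a| := Int.one_le_abs hz
        rw [← sq_abs]
        nlinarith
    rcases lt_or_gt_of_ne hab with h0 | h0
    · have := two_cubes (a := -a) (b := -b) (by linarith)
      rw [abs_neg, neg_pow_two] at this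
      have h5 : (-a) ^ 3 + (-b) ^ 3 = -(a ^ 3 + b ^ 3) := by ring
      rw [h5] at this
      have := neg_le_abs m
      linarith
    · have := two_cubes (a := a) (b := b) h0
      have := le_abs_self m
      linarith
  have e1 : (x + z) * (y + w) = (x + z) * (y + w) := rfl
  -- the three pairings
  by_cases hA : (x + y) * (z + w) < 0
  · refine good_of_neg hm h hA ?_
    rintro ⟨rfl, rfl⟩
    exact deg x z (by intro h0; rcases h3 with h3 | h3 <;> omega) (by linarith) hb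
  by_cases hB : (x + z) * (y + w) < 0
  · refine good_of_neg hm (x := x) (y := z) (z := y) (w := w) (by linarith) hB ?_
    rintro ⟨rfl, rfl⟩
    exact deg x y (by intro h0; rcases h3 with h3 | h3 <;> omega) (by linarith) hb
  by_cases hC : (x + w) * (y + z) < 0
  · refine good_of_neg hm (x := x) (y := w) (z := y) (w := z) (by linarith) hC ?_
    rintro ⟨rfl, rfl⟩
    exact deg x y (by intro h0; rcases h3 with h3 | h3 <;> omega) (by linarith) hb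
  exfalso
  have n1 : x + y ≠ 0 := by rcases h3 with h3 | h3 <;> omega
  have n2 : z + w ≠ 0 := by rcases h3 with h3 | h3 <;> omega
  have hA' : 0 < (x + y) * (z + w) :=
    lt_of_le_of_ne (not_lt.1 hA) (Ne.symm (mul_ne_zero n1 n2))
  rcases pos_and_pos_or_neg_and_neg_of_mul_pos hA' with ⟨p, q⟩ | ⟨p, q⟩
  · have := small_of_pos h p q
    linarith
  · have := small_of_pos (m := -m) (x := -x) (y := -y) (z := -z) (w := -w)
      (by rw [← h]; ring) (by linarith) (by linarith)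
    rw [abs_neg, abs_neg, neg_pow_two] at this
    linarith

/-- the box is finite -/
theorem box_finite (m : ℤ) : {p : ℤ × ℤ × ℤ × ℤ | 3 * p.1 ^ 2 - 3 * |p.1| + 2 ≤ |m| ∧
    3 * p.2.1 ^ 2 - 3 * |p.2.1| + 2 ≤ |m| ∧ 3 * p.2.2.1 ^ 2 - 3 * |p.2.2.1| + 2 ≤ |m| ∧
    3 * p.2.2.2 ^ 2 - 3 * |p.2.2.2| + 2 ≤ |m|}.Finite := by
  have key : ∀ a : ℤ, 3 * a ^ 2 - 3 * |a| + 2 ≤ |m| → a ∈ Set.Icc (-(|m| + 2)) (|m| + 2) := by
    intro a ha
    have : |a| ≤ |m| + 2 := by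
      rw [← sq_abs] at ha
      nlinarith [abs_nonneg a]
    rw [abs_le] at this
    exact this
  refine Set.Finite.subset ((Set.finite_Icc (-(|m| + 2)) (|m| + 2)).prod
    ((Set.finite_Icc (-(|m| + 2)) (|m| + 2)).prod ((Set.finite_Icc (-(|m| + 2)) (|m| + 2)).prod
      (Set.finite_Icc (-(|m| + 2)) (|m| + 2))))) ?_
  rintro ⟨a, b, c, d⟩ ⟨h1, h2, h3, h4⟩
  exact ⟨key a h1, key b h2, key c h3, key d h4⟩

theorem infinite_of_mod {m : ℤ} (h4 : m % 9 ≠ 4) (h5 : m % 9 ≠ 5) : (S m).Infinite :=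
  (good m h4 h5).infinite

/-- `S(m)` is infinite iff some solution has a large entry. -/
theorem infinite_iff (m : ℤ) : (S m).Infinite ↔ ∃ x y z w : ℤ,
    x ^ 3 + y ^ 3 + z ^ 3 + w ^ 3 = m ∧ |m| < 3 * x ^ 2 - 3 * |x| + 2 := by
  constructor
  · intro hi
    by_contra hno
    push Not at hno
    refine hi ((box_finite m).subset ?_)
    rintro ⟨x, y, z, w⟩ h
    simp only [S, Set.mem_ofPred_eq] at h
    exact ⟨hno x y z w h, hno y x z w (by linarith), hno z x y w (by linarith),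
      hno w x y z (by linarith)⟩
  · rintro ⟨x, y, z, w, h, hb⟩
    by_cases h4 : m % 9 = 4
    · exact (good_of_big (Or.inl h4) h hb).infinite
    by_cases h5 : m % 9 = 5
    · exact (good_of_big (Or.inr h5) h hb).infinite
    exact infinite_of_mod h4 h5

/-- In the classes `±4 (mod 9)`: `S(m)` is infinite iff there is a nondegenerate solution with
`(x+y)(z+w) < 0`. -/
theorem infinite_iff_neg {m : ℤ} (hm : m % 9 = 4 ∨ m % 9 = 5) : (S m).Infinite ↔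
    ∃ x y z w : ℤ, x ^ 3 + y ^ 3 + z ^ 3 + w ^ 3 = m ∧ (x + y) * (z + w) < 0 ∧
      ¬ (x = y ∧ z = w) := by
  constructor
  · intro hi
    obtain ⟨x, y, z, w, h, hb⟩ := (infinite_iff m).1 hi
    obtain ⟨x, y, z, w, h, hn, -, hd⟩ := good_of_big hm h hb
    exact ⟨x, y, z, w, h, hn, hd⟩
  · rintro ⟨x, y, z, w, h, hn, hd⟩
    exact (good_of_neg hm h hn hd).infinite

end Pool.Agent.J4H56.FC
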