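import Pool.Agent.J4H56.FC.Tmpl

/-!
# Sums of four integer cubes: the residue classes
-/

namespace Pool.Agent.J4H56.FC

theorem good_of {n : ℤ} (x y z w : ℤ) (h : x ^ 3 + y ^ 3 + z ^ 3 + w ^ 3 = n)
    (h1 : (x + y) * (z + w) < 0) (h2 : ¬ IsSquare (-((x + y) * (z + w))))
    (h3 : ¬ (x = y ∧ z = w)) : Good n := ⟨x, y, z, w, h, h1, h2, h3⟩

theorem mod_split (k : ℤ) (K : ℕ) (hK : 0 < K) : ∃ (q : ℤ) (r : ℕ), r < K ∧ k = r + K * q := by
  refine ⟨k / K, (k % K).toNat, ?_, ?_⟩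
  · have := Int.emod_lt_of_pos k (by exact_mod_cast hK : (0 : ℤ) < K)
    have := Int.emod_nonneg k (by exact_mod_cast hK.ne' : (K : ℤ) ≠ 0)
    omega
  · have := Int.emod_nonneg k (by exact_mod_cast hK.ne' : (K : ℤ) ≠ 0)
    rw [Int.toNat_of_nonneg this]
    exact (Int.emod_add_mul_ediv k K).symm

theorem g_z6 (k : ℤ) : Good (0 + 6 * k) := by
  have H : ∀ r < 1, dvb 1 2 1 (1) ((-13) + 24 * ((r : ℕ) : ℤ)) = true := by decide +kernel
  have D : Dv 1 2 1 (1) ((-13) + 24 * k) := by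
    obtain ⟨q, r, hr, rfl⟩ := mod_split k 1 (by norm_num)
    refine Dv.congr (j' := 1) (X' := (-13) + 24 * (r : ℤ)) ⟨0 * q, by push_cast; ring⟩ ⟨1 * q + 0 * q ^ 2 + 0 * q * r, by push_cast; ring⟩
      (Dv_of_dvb (H r hr))
  rcases le_or_gt 4 |(-13) + 24 * k| with hB | hB
  · exact leaf 4 (by norm_num) (by norm_num) (by norm_num) (by ring) D hB (by norm_num) (by norm_num)
      (by norm_num)
  · rw [abs_lt] at hB
    omega

theorem g_t6 (k : ℤ) : Good (3 + 6 * k) := by
  have H : ∀ r < 2, dvb 1 1 4 (1) (2 + 6 * ((r : ℕ) : ℤ)) = true := by decide +kernel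
  have D : Dv 1 1 4 (1) (2 + 6 * k) := by
    obtain ⟨q, r, hr, rfl⟩ := mod_split k 2 (by norm_num)
    refine Dv.congr (j' := 1) (X' := 2 + 6 * (r : ℤ)) ⟨0 * q, by push_cast; ring⟩ ⟨1 * q + 0 * q ^ 2 + 0 * q * r, by push_cast; ring⟩
      (Dv_of_dvb (H r hr))
  rcases le_or_gt 3 |2 + 6 * k| with hB | hB
  · exact leaf 3 (by norm_num) (by norm_num) (by norm_num) (by ring) D hB (by norm_num) (by norm_num)
      (by norm_num)
  · rw [abs_lt] at hB
    have hk : k = 0 := by omega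
    rcases hk with rfl
    · exact good_of (-8) (-8) 3 10 (by norm_num) (by norm_num) (by norm_num) (by norm_num)

theorem g_o18 (k : ℤ) : Good (1 + 18 * k) := by
  have H : ∀ r < 2, dvb 3 1 (-4) ((-1)) (184 + 18 * ((r : ℕ) : ℤ)) = true := by decide +kernel
  have D : Dv 3 1 (-4) ((-1)) (184 + 18 * k) := by
    obtain ⟨q, r, hr, rfl⟩ := mod_split k 2 (by norm_num)
    refine Dv.congr (j' := (-1)) (X' := 184 + 18 * (r : ℤ)) ⟨0 * q, by push_cast; ring⟩ ⟨1 * q + 0 * q ^ 2 + 0 * q * r, by push_cast; ring⟩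
      (Dv_of_dvb (H r hr))
  rcases le_or_gt 5 |184 + 18 * k| with hB | hB
  · exact leaf 5 (by norm_num) (by norm_num) (by norm_num) (by ring) D hB (by norm_num) (by norm_num)
      (by norm_num)
  · rw [abs_lt] at hB
    have hk : k = (-10) := by omega
    rcases hk with rfl
    · exact good_of (-12) (-5) 7 11 (by norm_num) (by norm_num) (by norm_num) (by norm_num)

theorem g_e18 (k : ℤ) : Good (8 + 18 * k) := by
  have H : ∀ r < 1, dvb 1 2 (-3) ((-1)) (15 + 24 * ((r : ℕ) : ℤ)) = true := by decide +kernel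
  have D : Dv 1 2 (-3) ((-1)) (15 + 24 * k) := by
    obtain ⟨q, r, hr, rfl⟩ := mod_split k 1 (by norm_num)
    refine Dv.congr (j' := (-1)) (X' := 15 + 24 * (r : ℤ)) ⟨0 * q, by push_cast; ring⟩ ⟨1 * q + 0 * q ^ 2 + 0 * q * r, by push_cast; ring⟩
      (Dv_of_dvb (H r hr))
  rcases le_or_gt 4 |15 + 24 * k| with hB | hB
  · exact leaf 4 (by norm_num) (by norm_num) (by norm_num) (by ring) D hB (by norm_num) (by norm_num)
      (by norm_num)
  · rw [abs_lt] at hB
    omega

theorem g_w54 (k : ℤ) : Good (20 + 54 * k) := by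
  have H : ∀ r < 3, dvb 1 6 (-9) ((-1)) (21 + 24 * ((r : ℕ) : ℤ)) = true := by decide +kernel
  have D : Dv 1 6 (-9) ((-1)) (21 + 24 * k) := by
    obtain ⟨q, r, hr, rfl⟩ := mod_split k 3 (by norm_num)
    refine Dv.congr (j' := (-1)) (X' := 21 + 24 * (r : ℤ)) ⟨0 * q, by push_cast; ring⟩ ⟨1 * q + 0 * q ^ 2 + 0 * q * r, by push_cast; ring⟩
      (Dv_of_dvb (H r hr))
  rcases le_or_gt 7 |21 + 24 * k| with hB | hB
  · exact leaf 7 (by norm_num) (by norm_num) (by norm_num) (by ring) D hB (by norm_num) (by norm_num)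
      (by norm_num)
  · rw [abs_lt] at hB
    have hk : k = (-1) := by omega
    rcases hk with rfl
    · exact good_of (-5) (-5) 0 6 (by norm_num) (by norm_num) (by norm_num) (by norm_num)

theorem g_a54 (k : ℤ) : Good (2 + 108 * k) := by
  have H : ∀ r < 4, dvb 3 6 (-4) ((-2)) (757 + 54 * ((r : ℕ) : ℤ)) = true := by decide +kernel
  have D : Dv 3 6 (-4) ((-2)) (757 + 54 * k) := by
    obtain ⟨q, r, hr, rfl⟩ := mod_split k 4 (by norm_num)
    refine Dv.congr (j' := (-2)) (X' := 757 + 54 * (r : ℤ)) ⟨0 * q, by push_cast; ring⟩ ⟨1 * q + 0 * q ^ 2 + 0 * q * r, by push_cast; ring⟩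
      (Dv_of_dvb (H r hr))
  rcases le_or_gt 11 |757 + 54 * k| with hB | hB
  · exact leaf 11 (by norm_num) (by norm_num) (by norm_num) (by ring) D hB (by norm_num) (by norm_num)
      (by norm_num)
  · rw [abs_lt] at hB
    have hk : k = (-14) := by omega
    rcases hk with rfl
    · exact good_of (-12) (-8) 1 9 (by norm_num) (by norm_num) (by norm_num) (by norm_num)

theorem g_b54 (k : ℤ) : Good (56 + 216 * k) := by
  have H : ∀ r < 4, dvb 3 12 (-4) ((-2)) (865 + 108 * ((r : ℕ) : ℤ)) = true := by decide +kernel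
  have D : Dv 3 12 (-4) ((-2)) (865 + 108 * k) := by
    obtain ⟨q, r, hr, rfl⟩ := mod_split k 4 (by norm_num)
    refine Dv.congr (j' := (-2)) (X' := 865 + 108 * (r : ℤ)) ⟨0 * q, by push_cast; ring⟩ ⟨1 * q + 0 * q ^ 2 + 0 * q * r, by push_cast; ring⟩
      (Dv_of_dvb (H r hr))
  rcases le_or_gt 15 |865 + 108 * k| with hB | hB
  · exact leaf 15 (by norm_num) (by norm_num) (by norm_num) (by ring) D hB (by norm_num) (by norm_num)
      (by norm_num)
  · rw [abs_lt] at hB
    have hk : k = (-8) := by omega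
    rcases hk with rfl
    · exact good_of (-12) (-2) 0 4 (by norm_num) (by norm_num) (by norm_num) (by norm_num)

theorem g_c54 (k : ℤ) : Good (164 + 216 * k) := by
  have H : ∀ r < 16, dvb 6 12 16 (1) ((-2902) + 54 * ((r : ℕ) : ℤ)) = true := by decide +kernel
  have D : Dv 6 12 16 (1) ((-2902) + 54 * k) := by
    obtain ⟨q, r, hr, rfl⟩ := mod_split k 16 (by norm_num)
    refine Dv.congr (j' := 1) (X' := (-2902) + 54 * (r : ℤ)) ⟨0 * q, by push_cast; ring⟩ ⟨1 * q + 0 * q ^ 2 + 0 * q * r, by push_cast; ring⟩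
      (Dv_of_dvb (H r hr))
  rcases le_or_gt 21 |(-2902) + 54 * k| with hB | hB
  · exact leaf 21 (by norm_num) (by norm_num) (by norm_num) (by ring) D hB (by norm_num) (by norm_num)
      (by norm_num)
  · rw [abs_lt] at hB
    have hk : k = 54 := by omega
    rcases hk with rfl
    · exact good_of (-11) (-9) 4 24 (by norm_num) (by norm_num) (by norm_num) (by norm_num)

theorem g_n92 (k : ℤ) : Good (92 + 108 * k) := by
  have H : ∀ r < 2, dvb 3 6 8 ((-92) + (-108) * ((r : ℕ) : ℤ)) ((-771296) + (-1810836) * ((r : ℕ) : ℤ) + (-1062882) * ((r : ℕ) : ℤ) ^ 2) = true := by decide +kernel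
  have D : Dv 3 6 8 ((-92) + (-108) * k) ((-771296) + (-1810836) * k + (-1062882) * k ^ 2) := by
    obtain ⟨q, r, hr, rfl⟩ := mod_split k 2 (by norm_num)
    refine Dv.congr (j' := (-92) + (-108) * (r : ℤ)) (X' := (-771296) + (-1810836) * (r : ℤ) + (-1062882) * (r : ℤ) ^ 2) ⟨(-1) * q, by push_cast; ring⟩ ⟨(-16767) * q + (-19683) * q ^ 2 + (-19683) * q * r, by push_cast; ring⟩
      (Dv_of_dvb (H r hr))
  have hj : (-92) + (-108) * k ≠ 0 := by omega
  have hj2 : 1 ≤ ((-92) + (-108) * k) ^ 2 := by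
    have : 0 < ((-92) + (-108) * k) ^ 2 := by positivity
    omega
  have hX : 11 ≤ |(-771296) + (-1810836) * k + (-1062882) * k ^ 2| := by
    refine le_abs.2 (Or.inr ?_)
    nlinarith [hj2]
  exact leaf 11 (by norm_num) (by norm_num) hj (by ring) D hX (by norm_num) (by norm_num)
    (by norm_num)

theorem g_m0 (k : ℤ) : Good (38 + 540 * k) := by
  have H : ∀ r < 1, dvb 3 6 5 (1) ((-137) + 432 * ((r : ℕ) : ℤ)) = true := by decide +kernel
  have D : Dv 3 6 5 (1) ((-137) + 432 * k) := by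
    obtain ⟨q, r, hr, rfl⟩ := mod_split k 1 (by norm_num)
    refine Dv.congr (j' := 1) (X' := (-137) + 432 * (r : ℤ)) ⟨0 * q, by push_cast; ring⟩ ⟨2 * q + 0 * q ^ 2 + 0 * q * r, by push_cast; ring⟩
      (Dv_of_dvb (H r hr))
  rcases le_or_gt 11 |(-137) + 432 * k| with hB | hB
  · exact leaf 11 (by norm_num) (by norm_num) (by norm_num) (by ring) D hB (by norm_num) (by norm_num)
      (by norm_num)
  · rw [abs_lt] at hB
    omega

theorem g_m1 (k : ℤ) : Good (146 + 540 * k) := by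
  have H : ∀ r < 8, dvb 3 12 5 (73 + 270 * ((r : ℕ) : ℤ)) ((-777053) + (-5747436) * ((r : ℕ) : ℤ) + (-10628820) * ((r : ℕ) : ℤ) ^ 2) = true := by decide +kernel
  have D : Dv 3 12 5 (73 + 270 * k) ((-777053) + (-5747436) * k + (-10628820) * k ^ 2) := by
    obtain ⟨q, r, hr, rfl⟩ := mod_split k 8 (by norm_num)
    refine Dv.congr (j' := 73 + 270 * (r : ℤ)) (X' := (-777053) + (-5747436) * (r : ℤ) + (-10628820) * (r : ℤ) ^ 2) ⟨5 * q, by push_cast; ring⟩ ⟨(-106434) * q + (-1574640) * q ^ 2 + (-393660) * q * r, by push_cast; ring⟩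
      (Dv_of_dvb (H r hr))
  have hj : 73 + 270 * k ≠ 0 := by omega
  have hj2 : 1 ≤ (73 + 270 * k) ^ 2 := by
    have : 0 < (73 + 270 * k) ^ 2 := by positivity
    omega
  have hX : 15 ≤ |(-777053) + (-5747436) * k + (-10628820) * k ^ 2| := by
    refine le_abs.2 (Or.inr ?_)
    nlinarith [hj2]
  exact leaf 15 (by norm_num) (by norm_num) hj (by ring) D hX (by norm_num) (by norm_num)
    (by norm_num)

theorem g_m2 (k : ℤ) : Good (254 + 540 * k) := by
  have H : ∀ r < 1, dvb 3 12 5 (1) ((-29) + 432 * ((r : ℕ) : ℤ)) = true := by decide +kernel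
  have D : Dv 3 12 5 (1) ((-29) + 432 * k) := by
    obtain ⟨q, r, hr, rfl⟩ := mod_split k 1 (by norm_num)
    refine Dv.congr (j' := 1) (X' := (-29) + 432 * (r : ℤ)) ⟨0 * q, by push_cast; ring⟩ ⟨1 * q + 0 * q ^ 2 + 0 * q * r, by push_cast; ring⟩
      (Dv_of_dvb (H r hr))
  rcases le_or_gt 15 |(-29) + 432 * k| with hB | hB
  · exact leaf 15 (by norm_num) (by norm_num) (by norm_num) (by ring) D hB (by norm_num) (by norm_num)
      (by norm_num)
  · rw [abs_lt] at hB
    omega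

theorem g_m4 (k : ℤ) : Good (470 + 540 * k) := by
  have H : ∀ r < 3, dvb 1 6 9 (5) (27 + 48 * ((r : ℕ) : ℤ)) = true := by decide +kernel
  have D : Dv 1 6 9 (5) (27 + 48 * k) := by
    obtain ⟨q, r, hr, rfl⟩ := mod_split k 3 (by norm_num)
    refine Dv.congr (j' := 5) (X' := 27 + 48 * (r : ℤ)) ⟨0 * q, by push_cast; ring⟩ ⟨2 * q + 0 * q ^ 2 + 0 * q * r, by push_cast; ring⟩
      (Dv_of_dvb (H r hr))
  rcases le_or_gt 7 |27 + 48 * k| with hB | hB
  · exact leaf 7 (by norm_num) (by norm_num) (by norm_num) (by ring) D hB (by norm_num) (by norm_num)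
      (by norm_num)
  · rw [abs_lt] at hB
    omega

theorem g_m8 (k : ℤ) : Good (902 + 1620 * k) := by
  have H : ∀ r < 18, dvb 5 18 108 (902 + 1620 * ((r : ℕ) : ℤ)) ((-117708921) + (-422812500) * ((r : ℕ) : ℤ) + (-379687500) * ((r : ℕ) : ℤ) ^ 2) = true := by decide +kernel
  have D : Dv 5 18 108 (902 + 1620 * k) ((-117708921) + (-422812500) * k + (-379687500) * k ^ 2) := by
    obtain ⟨q, r, hr, rfl⟩ := mod_split k 18 (by norm_num)
    refine Dv.congr (j' := 902 + 1620 * (r : ℤ)) (X' := (-117708921) + (-422812500) * (r : ℤ) + (-379687500) * (r : ℤ) ^ 2) ⟨27 * q, by push_cast; ring⟩ ⟨(-7046875) * q + (-113906250) * q ^ 2 + (-12656250) * q * r, by push_cast; ring⟩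
      (Dv_of_dvb (H r hr))
  have hj : 902 + 1620 * k ≠ 0 := by omega
  have hj2 : 1 ≤ (902 + 1620 * k) ^ 2 := by
    have : 0 < (902 + 1620 * k) ^ 2 := by positivity
    omega
  have hX : 24 ≤ |(-117708921) + (-422812500) * k + (-379687500) * k ^ 2| := by
    refine le_abs.2 (Or.inr ?_)
    nlinarith [hj2]
  exact leaf 24 (by norm_num) (by norm_num) hj (by ring) D hX (by norm_num) (by norm_num)
    (by norm_num)

theorem g_m13 (k : ℤ) : Good (1442 + 1620 * k) := by
  have H : ∀ r < 36, dvb 5 18 108 (2) ((-561) + 30 * ((r : ℕ) : ℤ)) = true := by decide +kernel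
  have D : Dv 5 18 108 (2) ((-561) + 30 * k) := by
    obtain ⟨q, r, hr, rfl⟩ := mod_split k 36 (by norm_num)
    refine Dv.congr (j' := 2) (X' := (-561) + 30 * (r : ℤ)) ⟨0 * q, by push_cast; ring⟩ ⟨1 * q + 0 * q ^ 2 + 0 * q * r, by push_cast; ring⟩
      (Dv_of_dvb (H r hr))
  rcases le_or_gt 24 |(-561) + 30 * k| with hB | hB
  · exact leaf 24 (by norm_num) (by norm_num) (by norm_num) (by ring) D hB (by norm_num) (by norm_num)
      (by norm_num)
  · rw [abs_lt] at hB
    have hk : k = 18 ∨ k = 19 := by omega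
    rcases hk with rfl | rfl
    · exact good_of (-8) (-2) 11 31 (by norm_num) (by norm_num) (by norm_num) (by norm_num)
    · exact good_of (-45) (-21) (-20) 52 (by norm_num) (by norm_num) (by norm_num) (by norm_num)

theorem g_p3 (k : ℤ) : Good (362 + 17820 * k) := by
  have H : ∀ r < 8, dvb 11 12 99 ((-181) + (-8910) * ((r : ℕ) : ℤ)) ((-586243539) + (-57717457380) * ((r : ℕ) : ℤ) + (-1420614765900) * ((r : ℕ) : ℤ) ^ 2) = true := by decide +kernel
  have D : Dv 11 12 99 ((-181) + (-8910) * k) ((-586243539) + (-57717457380) * k + (-1420614765900) * k ^ 2) := by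
    obtain ⟨q, r, hr, rfl⟩ := mod_split k 8 (by norm_num)
    refine Dv.congr (j' := (-181) + (-8910) * (r : ℤ)) (X' := (-586243539) + (-57717457380) * (r : ℤ) + (-1420614765900) * (r : ℤ) ^ 2) ⟨(-45) * q, by push_cast; ring⟩ ⟨(-291502310) * q + (-57398576400) * q ^ 2 + (-14349644100) * q * r, by push_cast; ring⟩
      (Dv_of_dvb (H r hr))
  have hj : (-181) + (-8910) * k ≠ 0 := by omega
  have hj2 : 1 ≤ ((-181) + (-8910) * k) ^ 2 := by
    have : 0 < ((-181) + (-8910) * k) ^ 2 := by positivity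
    omega
  have hX : 29 ≤ |(-586243539) + (-57717457380) * k + (-1420614765900) * k ^ 2| := by
    refine le_abs.2 (Or.inr ?_)
    nlinarith [hj2]
  exact leaf 29 (by norm_num) (by norm_num) hj (by ring) D hX (by norm_num) (by norm_num)
    (by norm_num)

theorem g_p33 (k : ℤ) : Good (3602 + 17820 * k) := by
  have H : ∀ r < 2, dvb 3 6 44 ((-3602) + (-17820) * ((r : ℕ) : ℤ)) ((-214962287) + (-2126944980) * ((r : ℕ) : ℤ) + (-5261265900) * ((r : ℕ) : ℤ) ^ 2) = true := by decide +kernel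
  have D : Dv 3 6 44 ((-3602) + (-17820) * k) ((-214962287) + (-2126944980) * k + (-5261265900) * k ^ 2) := by
    obtain ⟨q, r, hr, rfl⟩ := mod_split k 2 (by norm_num)
    refine Dv.congr (j' := (-3602) + (-17820) * (r : ℤ)) (X' := (-214962287) + (-2126944980) * (r : ℤ) + (-5261265900) * (r : ℤ) ^ 2) ⟨(-165) * q, by push_cast; ring⟩ ⟨(-19693935) * q + (-97430850) * q ^ 2 + (-97430850) * q * r, by push_cast; ring⟩
      (Dv_of_dvb (H r hr))
  have hj : (-3602) + (-17820) * k ≠ 0 := by omega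
  have hj2 : 1 ≤ ((-3602) + (-17820) * k) ^ 2 := by
    have : 0 < ((-3602) + (-17820) * k) ^ 2 := by positivity
    omega
  have hX : 11 ≤ |(-214962287) + (-2126944980) * k + (-5261265900) * k ^ 2| := by
    refine le_abs.2 (Or.inr ?_)
    nlinarith [hj2]
  exact leaf 11 (by norm_num) (by norm_num) hj (by ring) D hX (by norm_num) (by norm_num)
    (by norm_num)

theorem g_p48 (k : ℤ) : Good (5222 + 17820 * k) := by
  have H : ∀ r < 4, dvb 15 66 5 (2611 + 8910 * ((r : ℕ) : ℤ)) ((-15530709405737) + (-105996645562500) * ((r : ℕ) : ℤ) + (-180856015312500) * ((r : ℕ) : ℤ) ^ 2) = true := by decide +kernel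
  have D : Dv 15 66 5 (2611 + 8910 * k) ((-15530709405737) + (-105996645562500) * k + (-180856015312500) * k ^ 2) := by
    obtain ⟨q, r, hr, rfl⟩ := mod_split k 4 (by norm_num)
    refine Dv.congr (j' := 2611 + 8910 * (r : ℤ)) (X' := (-15530709405737) + (-105996645562500) * (r : ℤ) + (-180856015312500) * (r : ℤ) ^ 2) ⟨3 * q, by push_cast; ring⟩ ⟨(-35689106250) * q + (-243577125000) * q ^ 2 + (-121788562500) * q * r, by push_cast; ring⟩
      (Dv_of_dvb (H r hr))
  have hj : 2611 + 8910 * k ≠ 0 := by omega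
  have hj2 : 1 ≤ (2611 + 8910 * k) ^ 2 := by
    have : 0 < (2611 + 8910 * k) ^ 2 := by positivity
    omega
  have hX : 78 ≤ |(-15530709405737) + (-105996645562500) * k + (-180856015312500) * k ^ 2| := by
    refine le_abs.2 (Or.inr ?_)
    nlinarith [hj2]
  exact leaf 78 (by norm_num) (by norm_num) hj (by ring) D hX (by norm_num) (by norm_num)
    (by norm_num)

theorem g_p63 (k : ℤ) : Good (6842 + 17820 * k) := by
  have H : ∀ r < 1, dvb 3 6 (-1) ((-11)) (90805 + 6480 * ((r : ℕ) : ℤ)) = true := by decide +kernel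
  have D : Dv 3 6 (-1) ((-11)) (90805 + 6480 * k) := by
    obtain ⟨q, r, hr, rfl⟩ := mod_split k 1 (by norm_num)
    refine Dv.congr (j' := (-11)) (X' := 90805 + 6480 * (r : ℤ)) ⟨0 * q, by push_cast; ring⟩ ⟨30 * q + 0 * q ^ 2 + 0 * q * r, by push_cast; ring⟩
      (Dv_of_dvb (H r hr))
  rcases le_or_gt 11 |90805 + 6480 * k| with hB | hB
  · exact leaf 11 (by norm_num) (by norm_num) (by norm_num) (by ring) D hB (by norm_num) (by norm_num)
      (by norm_num)
  · rw [abs_lt] at hB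
    omega

theorem g_p78 (k : ℤ) : Good (8462 + 17820 * k) := by
  have H : ∀ r < 4, dvb 3 18 (-44) ((-2)) (473 + 810 * ((r : ℕ) : ℤ)) = true := by decide +kernel
  have D : Dv 3 18 (-44) ((-2)) (473 + 810 * k) := by
    obtain ⟨q, r, hr, rfl⟩ := mod_split k 4 (by norm_num)
    refine Dv.congr (j' := (-2)) (X' := 473 + 810 * (r : ℤ)) ⟨0 * q, by push_cast; ring⟩ ⟨5 * q + 0 * q ^ 2 + 0 * q * r, by push_cast; ring⟩
      (Dv_of_dvb (H r hr))
  rcases le_or_gt 19 |473 + 810 * k| with hB | hB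
  · exact leaf 19 (by norm_num) (by norm_num) (by norm_num) (by ring) D hB (by norm_num) (by norm_num)
      (by norm_num)
  · rw [abs_lt] at hB
    omega

theorem g_p93 (k : ℤ) : Good (10082 + 17820 * k) := by
  have H : ∀ r < 4, dvb 3 6 (-44) ((-2)) (527 + 810 * ((r : ℕ) : ℤ)) = true := by decide +kernel
  have D : Dv 3 6 (-44) ((-2)) (527 + 810 * k) := by
    obtain ⟨q, r, hr, rfl⟩ := mod_split k 4 (by norm_num)
    refine Dv.congr (j' := (-2)) (X' := 527 + 810 * (r : ℤ)) ⟨0 * q, by push_cast; ring⟩ ⟨15 * q + 0 * q ^ 2 + 0 * q * r, by push_cast; ring⟩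
      (Dv_of_dvb (H r hr))
  rcases le_or_gt 11 |527 + 810 * k| with hB | hB
  · exact leaf 11 (by norm_num) (by norm_num) (by norm_num) (by ring) D hB (by norm_num) (by norm_num)
      (by norm_num)
  · rw [abs_lt] at hB
    omega

theorem g_p108 (k : ℤ) : Good (11702 + 17820 * k) := by
  have H : ∀ r < 1, dvb 11 6 (-9) ((-1)) (202053 + 7920 * ((r : ℕ) : ℤ)) = true := by decide +kernel
  have D : Dv 11 6 (-9) ((-1)) (202053 + 7920 * k) := by
    obtain ⟨q, r, hr, rfl⟩ := mod_split k 1 (by norm_num)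
    refine Dv.congr (j' := (-1)) (X' := 202053 + 7920 * (r : ℤ)) ⟨0 * q, by push_cast; ring⟩ ⟨10 * q + 0 * q ^ 2 + 0 * q * r, by push_cast; ring⟩
      (Dv_of_dvb (H r hr))
  rcases le_or_gt 20 |202053 + 7920 * k| with hB | hB
  · exact leaf 20 (by norm_num) (by norm_num) (by norm_num) (by ring) D hB (by norm_num) (by norm_num)
      (by norm_num)
  · rw [abs_lt] at hB
    omega

theorem g_p123 (k : ℤ) : Good (13322 + 17820 * k) := by
  have H : ∀ r < 8, dvb 11 12 99 ((-6661) + (-8910) * ((r : ℕ) : ℤ)) ((-793962121779) + (-2124066207780) * ((r : ℕ) : ℤ) + (-1420614765900) * ((r : ℕ) : ℤ) ^ 2) = true := by decide +kernel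
  have D : Dv 11 12 99 ((-6661) + (-8910) * k) ((-793962121779) + (-2124066207780) * k + (-1420614765900) * k ^ 2) := by
    obtain ⟨q, r, hr, rfl⟩ := mod_split k 8 (by norm_num)
    refine Dv.congr (j' := (-6661) + (-8910) * (r : ℤ)) (X' := (-793962121779) + (-2124066207780) * (r : ℤ) + (-1420614765900) * (r : ℤ) ^ 2) ⟨(-45) * q, by push_cast; ring⟩ ⟨(-10727607110) * q + (-57398576400) * q ^ 2 + (-14349644100) * q * r, by push_cast; ring⟩
      (Dv_of_dvb (H r hr))
  have hj : (-6661) + (-8910) * k ≠ 0 := by omega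
  have hj2 : 1 ≤ ((-6661) + (-8910) * k) ^ 2 := by
    have : 0 < ((-6661) + (-8910) * k) ^ 2 := by positivity
    omega
  have hX : 29 ≤ |(-793962121779) + (-2124066207780) * k + (-1420614765900) * k ^ 2| := by
    refine le_abs.2 (Or.inr ?_)
    nlinarith [hj2]
  exact leaf 29 (by norm_num) (by norm_num) hj (by ring) D hX (by norm_num) (by norm_num)
    (by norm_num)

theorem g_p138 (k : ℤ) : Good (14942 + 17820 * k) := by
  have H : ∀ r < 4, dvb 15 6 (-44) ((-2)) (1036193 + 810 * ((r : ℕ) : ℤ)) = true := by decide +kernel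
  have D : Dv 15 6 (-44) ((-2)) (1036193 + 810 * k) := by
    obtain ⟨q, r, hr, rfl⟩ := mod_split k 4 (by norm_num)
    refine Dv.congr (j' := (-2)) (X' := 1036193 + 810 * (r : ℤ)) ⟨0 * q, by push_cast; ring⟩ ⟨3 * q + 0 * q ^ 2 + 0 * q * r, by push_cast; ring⟩
      (Dv_of_dvb (H r hr))
  rcases le_or_gt 24 |1036193 + 810 * k| with hB | hB
  · exact leaf 24 (by norm_num) (by norm_num) (by norm_num) (by ring) D hB (by norm_num) (by norm_num)
      (by norm_num)
  · rw [abs_lt] at hB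
    omega

theorem g_p153 (k : ℤ) : Good (16562 + 17820 * k) := by
  have H : ∀ r < 2, dvb 15 6 44 ((-16562) + (-17820) * ((r : ℕ) : ℤ)) ((-71010151376423) + (-152807740312500) * ((r : ℕ) : ℤ) + (-82207279687500) * ((r : ℕ) : ℤ) ^ 2) = true := by decide +kernel
  have D : Dv 15 6 44 ((-16562) + (-17820) * k) ((-71010151376423) + (-152807740312500) * k + (-82207279687500) * k ^ 2) := by
    obtain ⟨q, r, hr, rfl⟩ := mod_split k 2 (by norm_num)
    refine Dv.congr (j' := (-16562) + (-17820) * (r : ℤ)) (X' := (-71010151376423) + (-152807740312500) * (r : ℤ) + (-82207279687500) * (r : ℤ) ^ 2) ⟨(-33) * q, by push_cast; ring⟩ ⟨(-282977296875) * q + (-304471406250) * q ^ 2 + (-304471406250) * q * r, by push_cast; ring⟩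
      (Dv_of_dvb (H r hr))
  have hj : (-16562) + (-17820) * k ≠ 0 := by omega
  have hj2 : 1 ≤ ((-16562) + (-17820) * k) ^ 2 := by
    have : 0 < ((-16562) + (-17820) * k) ^ 2 := by positivity
    omega
  have hX : 24 ≤ |(-71010151376423) + (-152807740312500) * k + (-82207279687500) * k ^ 2| := by
    refine le_abs.2 (Or.inr ?_)
    nlinarith [hj2]
  exact leaf 24 (by norm_num) (by norm_num) hj (by ring) D hX (by norm_num) (by norm_num)
    (by norm_num)

end Pool.Agent.J4H56.FC
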