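import Pool.Agent.J4H56.FC.Basic

/-!
# Sums of four integer cubes: the template identity
-/

namespace Pool.Agent.J4H56.FC

/-- `n` has a representation to which Mordell's construction applies. -/
def Good (n : ℤ) : Prop := ∃ x y z w : ℤ, x ^ 3 + y ^ 3 + z ^ 3 + w ^ 3 = n ∧
  (x + y) * (z + w) < 0 ∧ ¬ IsSquare (-((x + y) * (z + w))) ∧ ¬ (x = y ∧ z = w)

theorem Good.infinite {n : ℤ} (h : Good n) : (S n).Infinite := by
  obtain ⟨x, y, z, w, h1, h2, h3, h4⟩ := h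
  exact infinite_of_good h1 h2 h3 h4

theorem Good.neg {n : ℤ} (h : Good n) : Good (-n) := by
  obtain ⟨x, y, z, w, h1, h2, h3, h4⟩ := h
  refine ⟨-x, -y, -z, -w, by rw [← h1]; ring, ?_, ?_, ?_⟩
  · have : (-x + -y) * (-z + -w) = (x + y) * (z + w) := by ring
    rw [this]; exact h2
  · have : (-x + -y) * (-z + -w) = (x + y) * (z + w) := by ring
    rw [this]; exact h3
  · rintro ⟨a, b⟩
    exact h4 ⟨by linarith, by linarith⟩

/-- `p² - q²` is positive and not a square if `q ≠ 0` and `|p| > q²`. -/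
theorem nonsq {p q : ℤ} (hq : q ≠ 0) (h : q ^ 2 < |p|) :
    0 < p ^ 2 - q ^ 2 ∧ ∀ r : ℤ, p ^ 2 - q ^ 2 ≠ r ^ 2 := by
  have hq2 : 1 ≤ q ^ 2 := by
    have : 0 < q ^ 2 := by positivity
    omega
  have hpos : 0 < p ^ 2 - q ^ 2 := by
    have : |p| ^ 2 = p ^ 2 := sq_abs p
    nlinarith
  refine ⟨hpos, fun r hr => ?_⟩
  have h1 : (|p| - |r|) * (|p| + |r|) = q ^ 2 := by
    have a := sq_abs p
    have b := sq_abs r
    nlinarith
  have h2 : 0 < |p| - |r| := by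
    by_contra hc
    have : (|p| - |r|) * (|p| + |r|) ≤ 0 :=
      mul_nonpos_of_nonpos_of_nonneg (by linarith) (by positivity)
    linarith
  have h3 : |p| + |r| ≤ (|p| - |r|) * (|p| + |r|) := by
    have : 0 ≤ |p| + |r| := by positivity
    nlinarith
  have h4 := abs_nonneg r
  linarith

theorem good_of_uv {n s t u v : ℤ} (h : 4 * n = s ^ 3 + t ^ 3 + 3 * (s * u ^ 2 + t * v ^ 2))
    (pu : 2 ∣ s + u) (pv : 2 ∣ t + v) (hst : s + t ≠ 0) (hne : s ≠ t)
    (hb : (s + t) ^ 2 < |u| + |v|) : Good n := by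
  obtain ⟨x, hx⟩ := pu
  obtain ⟨z, hz⟩ := pv
  have hu : u = 2 * x - s := by linarith
  have hv : v = 2 * z - t := by linarith
  have hsum : x ^ 3 + (s - x) ^ 3 + z ^ 3 + (t - z) ^ 3 = n := by
    have : 4 * (x ^ 3 + (s - x) ^ 3 + z ^ 3 + (t - z) ^ 3) = 4 * n := by
      rw [h, hu, hv]; ring
    linarith
  rcases le_or_gt 0 (u * v) with huv | huv
  · -- pair (x, z), (y, w)
    have habs : |u + v| = |u| + |v| := by
      rcases nonneg_and_nonneg_or_nonpos_and_nonpos_of_mul_nonneg huv with ⟨a, b⟩ | ⟨a, b⟩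
      · rw [abs_of_nonneg a, abs_of_nonneg b, abs_of_nonneg (by linarith)]
      · rw [abs_of_nonpos a, abs_of_nonpos b, abs_of_nonpos (by linarith)]; ring
    rw [← habs] at hb
    obtain ⟨h1, h2⟩ := nonsq hst hb
    have e : 4 * ((x + z) * (s - x + (t - z))) = -((u + v) ^ 2 - (s + t) ^ 2) := by
      rw [hu, hv]; ring
    refine ⟨x, z, s - x, t - z, by rw [← hsum]; ring, by linarith, ?_, ?_⟩
    · rintro ⟨r, hr⟩
      exact h2 (2 * r) (by linarith [e, hr, sq r, (by ring : (2 * r) ^ 2 = 4 * (r * r))])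
    · rintro ⟨a, b⟩
      apply hne; linarith
  · have habs : |u - v| = |u| + |v| := by
      rcases lt_or_gt_of_ne (show u ≠ 0 by rintro rfl; simp at huv) with a | a
      · have b : 0 < v := by nlinarith
        rw [abs_of_neg a, abs_of_pos b, abs_of_neg (by linarith)]; ring
      · have b : v < 0 := by nlinarith
        rw [abs_of_pos a, abs_of_neg b, abs_of_pos (by linarith)]; ring
    rw [← habs] at hb
    obtain ⟨h1, h2⟩ := nonsq hst hb
    have e : 4 * ((x + (t - z)) * (s - x + z)) = -((u - v) ^ 2 - (s + t) ^ 2) := by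
      rw [hu, hv]; ring
    refine ⟨x, t - z, s - x, z, by rw [← hsum]; ring, by linarith, ?_, ?_⟩
    · rintro ⟨r, hr⟩
      exact h2 (2 * r) (by linarith [e, hr, sq r, (by ring : (2 * r) ^ 2 = 4 * (r * r))])
    · rintro ⟨a, b⟩
      apply hne; linarith

/-- The divisibility conditions of the template. -/
def Dv (c E W j X : ℤ) : Prop := ∃ u v : ℤ, 6 * E * u = j ^ 2 * X ^ 5 + W ∧
  c * v = E + X * u ∧ 2 ∣ u - j * X ∧ 2 ∣ v - j * c

theorem Dv.congr {c E W j X j' X' : ℤ} (hj : 12 * E * c ∣ j - j') (hX : 12 * E * c ∣ X - X')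
    (h : Dv c E W j' X') : Dv c E W j X := by
  obtain ⟨u, v, h1, h2, ⟨p, hp⟩, ⟨r, hr⟩⟩ := h
  have hq : 12 * E * c ∣ j ^ 2 * X ^ 5 - j' ^ 2 * X' ^ 5 := by
    have e1 : 12 * E * c ∣ j ^ 2 - j' ^ 2 := hj.trans (sub_dvd_pow_sub_pow j j' 2)
    have e2 : 12 * E * c ∣ X ^ 5 - X' ^ 5 := hX.trans (sub_dvd_pow_sub_pow X X' 5)
    have : j ^ 2 * X ^ 5 - j' ^ 2 * X' ^ 5
        = (j ^ 2 - j' ^ 2) * X ^ 5 + j' ^ 2 * (X ^ 5 - X' ^ 5) := by ring
    rw [this]
    exact dvd_add (e1.mul_right _) (e2.mul_left _)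
  obtain ⟨q, hq⟩ := hq
  obtain ⟨a, ha⟩ := hj
  obtain ⟨b, hb⟩ := hX
  refine ⟨u + 2 * c * q, v + 12 * E * b * (u + 2 * c * q) + 2 * X' * q, ?_, ?_, ?_, ?_⟩
  · linear_combination h1 - hq
  · linear_combination h2 - (u + 2 * c * q) * hb
  · refine ⟨p + c * q - 6 * E * c * (a * X' + b * j), ?_⟩
    linear_combination hp - X' * ha - j * hb
  · refine ⟨r + 6 * E * b * (u + 2 * c * q) + X' * q - 6 * E * c * a * c, ?_⟩
    linear_combination hr - c * ha

/-- a decidable form of `Dv` -/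
def dvb (c E W j X : ℤ) : Bool :=
  (j ^ 2 * X ^ 5 + W) % (6 * E) == 0 && ((E + X * ((j ^ 2 * X ^ 5 + W) / (6 * E))) % c == 0 &&
    ((((j ^ 2 * X ^ 5 + W) / (6 * E)) - j * X) % 2 == 0 &&
      ((E + X * ((j ^ 2 * X ^ 5 + W) / (6 * E))) / c - j * c) % 2 == 0))

theorem Dv_of_dvb {c E W j X : ℤ} (h : dvb c E W j X = true) : Dv c E W j X := by
  simp only [dvb, Bool.and_eq_true, beq_iff_eq] at h
  obtain ⟨h1, h2, h3, h4⟩ := h
  exact ⟨_, _, Int.mul_ediv_cancel' (Int.dvd_of_emod_eq_zero h1),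
    Int.mul_ediv_cancel' (Int.dvd_of_emod_eq_zero h2), Int.dvd_of_emod_eq_zero h3,
    Int.dvd_of_emod_eq_zero h4⟩

/-- The template identity. -/
theorem leaf {n c E W j X : ℤ} (B : ℤ) (hE : 0 < E) (hc : 0 < c) (hj : j ≠ 0)
    (h : 4 * n = j * (j ^ 2 * c ^ 6 + 3 * E ^ 2 + W * X)) (hd : Dv c E W j X)
    (hB : B ≤ |X|) (h1 : c < B) (h2 : 6 * E * c + 1 ≤ B ^ 2) (h3 : |W| + 6 * E ^ 2 ≤ B ^ 3) :
    Good n := by
  obtain ⟨u, v, hu, hv, hp, hr⟩ := hd
  have hX : c < |X| := by linarith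
  have hX2 : c ^ 2 < X ^ 2 := by rw [← sq_abs X]; nlinarith
  have hj2 : 1 ≤ j ^ 2 := by
    have : 0 < j ^ 2 := by positivity
    omega
  have hBX : B ^ 2 ≤ |X| ^ 2 := by nlinarith
  have hBX3 : B ^ 3 ≤ |X| ^ 3 := pow_le_pow_left₀ (by linarith) hB 3
  have hXa : 1 ≤ |X| := by linarith
  -- 6 E c |v| ≥ |X| (j² |X|⁵ - |W|) - 6 E²
  have e1 : j ^ 2 * |X| ^ 5 - |W| ≤ 6 * E * |u| := by
    have a1 : |j ^ 2 * X ^ 5| - |W| ≤ |j ^ 2 * X ^ 5 + W| := by
      have := abs_sub_abs_le_abs_sub (j ^ 2 * X ^ 5) (-W)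
      rw [abs_neg, sub_neg_eq_add] at this
      exact this
    rw [abs_mul, abs_of_nonneg (by positivity : 0 ≤ j ^ 2), abs_pow, ← hu, abs_mul,
      abs_of_pos (by positivity : 0 < 6 * E)] at a1
    exact a1
  have e2 : |X| * |u| - E ≤ c * |v| := by
    have a1 : |X * u| - |E| ≤ |E + X * u| := by
      have := abs_sub_abs_le_abs_sub (X * u) (-E)
      rw [abs_neg, sub_neg_eq_add, add_comm (X * u)] at this
      exact this
    rw [abs_mul, abs_of_pos hE, ← hv, abs_mul, abs_of_pos hc] at a1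
    exact a1
  have e3 : j ^ 2 * X ^ 4 ≤ |v| := by
    have hX4 : X ^ 4 = |X| ^ 4 := by
      rw [← abs_pow]
      exact (abs_of_nonneg (by positivity)).symm
    rw [hX4]
    have a1 : |X| * (j ^ 2 * |X| ^ 5 - |W|) ≤ |X| * (6 * E * |u|) :=
      mul_le_mul_of_nonneg_left e1 (abs_nonneg X)
    have a2 : 6 * E * (|X| * |u| - E) ≤ 6 * E * (c * |v|) :=
      mul_le_mul_of_nonneg_left e2 (by positivity)
    have a3 : |W| * |X| + 6 * E ^ 2 ≤ j ^ 2 * |X| ^ 4 * (|X| ^ 2 - 6 * E * c) := by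
      have b1 : |W| * |X| + 6 * E ^ 2 ≤ |X| ^ 4 := by
        have : (|W| + 6 * E ^ 2) * |X| ≤ |X| ^ 3 * |X| :=
          mul_le_mul_of_nonneg_right (h3.trans hBX3) (abs_nonneg X)
        nlinarith [mul_nonneg (by positivity : 0 ≤ 6 * E ^ 2) (by linarith : 0 ≤ |X| - 1)]
      have b2 : |X| ^ 4 ≤ j ^ 2 * |X| ^ 4 := by nlinarith [pow_nonneg (abs_nonneg X) 4]
      have b3 : j ^ 2 * |X| ^ 4 ≤ j ^ 2 * |X| ^ 4 * (|X| ^ 2 - 6 * E * c) := by
        have : 1 ≤ |X| ^ 2 - 6 * E * c := by linarith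
        have : 0 ≤ j ^ 2 * |X| ^ 4 := by positivity
        nlinarith
      linarith
    have a4 : 6 * E * c * (j ^ 2 * |X| ^ 4) ≤ 6 * E * c * |v| := by nlinarith
    exact le_of_mul_le_mul_left a4 (by positivity)
  have e4 : (-(j * X ^ 2) + j * c ^ 2) ^ 2 < j ^ 2 * X ^ 4 := by
    have c1 : 0 < c ^ 2 := by positivity
    have : (-(j * X ^ 2) + j * c ^ 2) ^ 2 = j ^ 2 * (X ^ 2 - c ^ 2) ^ 2 := by ring
    rw [this]
    have : (X ^ 2 - c ^ 2) ^ 2 < X ^ 4 := by nlinarith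
    have : 0 < j ^ 2 := by linarith
    nlinarith
  refine good_of_uv (s := -(j * X ^ 2)) (t := j * c ^ 2) (u := u) (v := v) ?_ ?_ ?_ ?_ ?_ ?_
  · rw [h]
    have k1 : j * c ^ 2 * v ^ 2 = j * (E + X * u) ^ 2 := by rw [← hv]; ring
    linear_combination (-3) * k1 - j * X * hu
  · obtain ⟨p, hp⟩ := hp
    obtain ⟨k, hk⟩ : 2 ∣ X * (X - 1) := by
      rcases Int.even_or_odd X with ⟨k, hk⟩ | ⟨k, hk⟩
      · exact ⟨k * (X - 1), by rw [hk]; ring⟩
      · exact ⟨X * k, by rw [hk]; ring⟩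
    exact ⟨p - j * k, by linear_combination hp - j * hk⟩
  · obtain ⟨p, hp⟩ := hr
    obtain ⟨k, hk⟩ : 2 ∣ c * (c + 1) := by
      rcases Int.even_or_odd c with ⟨k, hk⟩ | ⟨k, hk⟩
      · exact ⟨k * (c + 1), by rw [hk]; ring⟩
      · exact ⟨c * (k + 1), by rw [hk]; ring⟩
    exact ⟨p + j * k, by linear_combination hp + j * hk⟩
  · intro h0
    have : j * (c ^ 2 - X ^ 2) = 0 := by linear_combination h0
    rcases mul_eq_zero.1 this with h5 | h5
    · exact hj h5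
    · linarith
  · intro h0
    have : j * (c ^ 2 + X ^ 2) = 0 := by linear_combination -h0
    rcases mul_eq_zero.1 this with h5 | h5
    · exact hj h5
    · have : 0 < c ^ 2 := by positivity
      have : 0 ≤ X ^ 2 := by positivity
      linarith
  · have := abs_nonneg u
    linarith

end Pool.Agent.J4H56.FC
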